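import Pool.Agent.R684.PN.Stm

set_option autoImplicit false

namespace Pool.Agent.R372.PN.DER

open Pool.Agent.R684.PN

/-- the wreath product -/
@[ext] structure Wr (G R : Type) where
  u : G → R
  g : G

section
variable {G R : Type} [Group G] [AddCommGroup R]

instance : Mul (Wr G R) := ⟨fun a b => ⟨fun x => a.u x + b.u (a.g⁻¹ * x), a.g * b.g⟩⟩
instance : One (Wr G R) := ⟨⟨fun _ => 0, 1⟩⟩
instance : Inv (Wr G R) := ⟨fun a => ⟨fun x => -a.u (a.g * x), a.g⁻¹⟩⟩

theorem mul_u (a b : Wr G R) (x : G) : (a * b).u x = a.u x + b.u (a.g⁻¹ * x) := rfl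
theorem mul_g (a b : Wr G R) : (a * b).g = a.g * b.g := rfl
theorem one_u (x : G) : (1 : Wr G R).u x = 0 := rfl
theorem one_g : (1 : Wr G R).g = 1 := rfl

instance : Group (Wr G R) := Group.ofLeftAxioms
  (by
    intro a b c
    apply Wr.ext
    · funext x
      rw [mul_u, mul_u, mul_u, mul_u, mul_g, mul_inv_rev, mul_assoc, add_assoc]
    · rw [mul_g, mul_g, mul_g, mul_g, mul_assoc])
  (by
    intro a
    apply Wr.ext
    · funext x
      rw [mul_u, one_u, one_g, inv_one, one_mul, zero_add]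
    · rw [mul_g, one_g, one_mul])
  (by
    intro a
    apply Wr.ext
    · funext x
      rw [mul_u, one_u]
      show -a.u (a.g * x) + a.u ((a.g⁻¹)⁻¹ * x) = 0
      rw [inv_inv, neg_add_cancel]
    · exact inv_mul_cancel a.g)

/-- the projection -/
def pg : Wr G R →* G where
  toFun := fun a => a.g
  map_one' := rfl
  map_mul' := fun _ _ => rfl

instance fin [Finite G] [Finite R] : Finite (Wr G R) := by
  have : Function.Injective (fun a : Wr G R => (a.u, a.g)) := by
    intro a b h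
    have h1 := Prod.ext_iff.1 h
    exact Wr.ext h1.1 h1.2
  exact Finite.of_injective _ this

theorem pow_one_u (a : Wr G R) (ha : a.g = 1) (n : ℕ) : (a ^ n).g = 1 ∧
    ∀ x, (a ^ n).u x = n • a.u x := by
  induction n with
  | zero => exact ⟨by rw [pow_zero]; rfl, fun x => by rw [pow_zero, one_u, zero_smul]⟩
  | succ n ih =>
    refine ⟨by rw [pow_succ, mul_g, ih.1, ha, one_mul], fun x => ?_⟩
    rw [pow_succ, mul_u, ih.1, ih.2, inv_one, one_mul, succ_nsmul]

theorem pgrp {p m : ℕ} (hG : IsPGroup p G) (hR : ∀ r : R, (p ^ m) • r = 0) :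
    IsPGroup p (Wr G R) := by
  intro a
  obtain ⟨k, hk⟩ := hG a.g
  refine ⟨k + m, ?_⟩
  have h1 : (a ^ p ^ k).g = 1 := by
    have : (pg (a ^ p ^ k) : G) = (pg a) ^ p ^ k := map_pow _ _ _
    exact this.trans hk
  obtain ⟨h2, h3⟩ := pow_one_u (a ^ p ^ k) h1 (p ^ m)
  rw [pow_add, pow_mul]
  apply Wr.ext
  · funext x
    rw [h3, hR, one_u]
  · exact h2

end

open CategoryTheory in
theorem functional (R : Type) [AddCommGroup R] (e : R) (he : ∀ n : ℤ, n • e = 0 → n = 0) :
    ∃ l : R →+ ℚ, l e = 1 := by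
  haveI : Injective (AddCommGrpCat.of ℚ) := AddCommGrpCat.injective_of_divisible _
  let i : ℤ →+ R := zmultiplesHom R e
  let j : ℤ →+ ℚ := zmultiplesHom ℚ 1
  haveI : Mono (AddCommGrpCat.ofHom i) := by
    rw [AddCommGrpCat.mono_iff_injective]
    rw [injective_iff_map_eq_zero]
    intro n hn
    exact he n hn
  refine ⟨(Injective.factorThru (AddCommGrpCat.ofHom j) (AddCommGrpCat.ofHom i)).hom, ?_⟩
  have h := Injective.comp_factorThru (AddCommGrpCat.ofHom j) (AddCommGrpCat.ofHom i)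
  have h1 := congrArg (fun f => f.hom (1 : ℤ)) h
  have h2 : i 1 = e := by simp [i]
  have h3 : j 1 = 1 := by simp [j]
  rw [← h2]
  exact h1.trans h3

open Classical in
theorem delta (P X : Type) [Group P] (b : X → P)
    (H : ∀ (E : Type) [Group E] [Group.IsNilpotent E] (e : X → E), ∃! h : P →* E,
      ∀ x, h (b x) = e x)
    (p : ℕ) [hp : Fact p.Prime] (G : Type) [Group G] [Finite G] (hG : IsPGroup p G) (q : P →* G)
    (x₀ : X) (y : G) : ∃ c : P → G → ℂ, Coc q c ∧ (∀ z, c (b x₀) z = if z = y then 1 else 0) ∧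
      ∀ x, x ≠ x₀ → ∀ z, c (b x) z = 0 := by
  have hm : ∀ m : ℕ, ∃ c : P → G → ZMod (p ^ (m + 1)),
      (∀ (g h : P) (x : G), c (g * h) x = c g x + c h ((q g)⁻¹ * x)) ∧
      (∀ z, c (b x₀) z = if z = y then 1 else 0) ∧ ∀ x, x ≠ x₀ → ∀ z, c (b x) z = 0 := by
    intro m
    haveI : NeZero (p ^ (m + 1)) := ⟨(pow_pos hp.out.pos _).ne'⟩
    haveI hnG : Group.IsNilpotent G := hG.isNilpotent
    have hW : IsPGroup p (Wr G (ZMod (p ^ (m + 1)))) := pgrp (m := m + 1) hG (by
      intro r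
      rw [nsmul_eq_mul, ZMod.natCast_self, zero_mul])
    haveI hnW : Group.IsNilpotent (Wr G (ZMod (p ^ (m + 1)))) := hW.isNilpotent
    obtain ⟨h, hh, -⟩ := H (Wr G (ZMod (p ^ (m + 1))))
      (fun x => ⟨fun z => if x = x₀ ∧ z = y then 1 else 0, q (b x)⟩)
    have hg : pg.comp h = q := by
      obtain ⟨k, _, hk⟩ := H G (fun x => q (b x))
      rw [hk q (fun x => rfl)]
      apply hk
      intro x
      show (h (b x)).g = q (b x)
      rw [hh]
    have hg' : ∀ g, (h g).g = q g := fun g => DFunLike.congr_fun hg g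
    refine ⟨fun g => (h g).u, ?_, ?_, ?_⟩
    · intro g k x
      show (h (g * k)).u x = _
      rw [map_mul, mul_u, hg']
    · intro z
      show (h (b x₀)).u z = _
      rw [hh]
      simp
    · intro x hx z
      show (h (b x)).u z = _
      rw [hh]
      simp [hx]
  choose c hc1 hc2 hc3 using hm
  obtain ⟨l, hl⟩ := functional (∀ m : ℕ, ZMod (p ^ (m + 1))) (fun _ => 1) (by
    intro n hn
    by_contra hne
    have h1 : ∀ m : ℕ, ((n : ℤ) : ZMod (p ^ (m + 1))) = 0 := by
      intro m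
      have := congrFun hn m
      simpa using this
    have h2 : ∀ m : ℕ, ((p ^ (m + 1) : ℕ) : ℤ) ∣ n := fun m =>
      (ZMod.intCast_zmod_eq_zero_iff_dvd n (p ^ (m + 1))).1 (h1 m)
    have h3 := Int.le_of_dvd (abs_pos.2 hne) ((dvd_abs _ _).2 (h2 n.natAbs))
    have h4 : n.natAbs < p ^ (n.natAbs + 1) :=
      lt_trans (Nat.lt_succ_self _) (Nat.lt_pow_self hp.out.one_lt)
    have h5 : |n| = (n.natAbs : ℤ) := Int.abs_eq_natAbs n
    rw [h5] at h3
    have h6 : p ^ (n.natAbs + 1) ≤ n.natAbs := by exact_mod_cast h3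
    omega)
  refine ⟨fun g x => ((l (fun m => c m g x) : ℚ) : ℂ), ?_, ?_, ?_⟩
  · intro g h x
    have h1 : (fun m => c m (g * h) x) = (fun m => c m g x) + fun m => c m h ((q g)⁻¹ * x) := by
      funext m
      rw [hc1]; rfl
    show ((l (fun m => c m (g * h) x) : ℚ) : ℂ) = _
    rw [h1, map_add]
    push_cast
    rfl
  · intro z
    by_cases hz : z = y
    · have h1 : (fun m => c m (b x₀) z) = fun _ => 1 := by
        funext m; rw [hc2, if_pos hz]
      show ((l (fun m => c m (b x₀) z) : ℚ) : ℂ) = _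
      rw [h1, hl, if_pos hz]; simp
    · have h1 : (fun m => c m (b x₀) z) = 0 := by
        funext m; rw [hc2, if_neg hz]; rfl
      show ((l (fun m => c m (b x₀) z) : ℚ) : ℂ) = _
      rw [h1, map_zero, if_neg hz]; simp
  · intro x hx z
    have h1 : (fun m => c m (b x) z) = 0 := by
      funext m; rw [hc3 m x hx]; rfl
    show ((l (fun m => c m (b x) z) : ℚ) : ℂ) = _
    rw [h1, map_zero]; simp

theorem t_DER : S_DER := by
  classical
  intro P X _ b H p _ G _ _ hG q x₁ x₂ hne e₁ e₂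
  haveI := Fintype.ofFinite G
  choose c hc1 hc2 hc3 using fun (x₀ : X) (y : G) => delta P X b H p G hG q x₀ y
  refine ⟨fun g z => ∑ y, e₁ y * c x₁ y g z + ∑ y, e₂ y * c x₂ y g z, ?_, ?_, ?_⟩
  · intro g h x
    show ∑ y, e₁ y * c x₁ y (g * h) x + ∑ y, e₂ y * c x₂ y (g * h) x = _
    simp only [hc1 _ _ g h x, mul_add, Finset.sum_add_distrib]
    ring
  · funext z
    show ∑ y, e₁ y * c x₁ y (b x₁) z + ∑ y, e₂ y * c x₂ y (b x₁) z = e₁ z
    have h1 : ∀ y, e₂ y * c x₂ y (b x₁) z = 0 := by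
      intro y; rw [hc3 x₂ y x₁ hne, mul_zero]
    rw [Finset.sum_congr rfl (fun y _ => h1 y), Finset.sum_const_zero, add_zero]
    have h2 : ∀ y, e₁ y * c x₁ y (b x₁) z = if z = y then e₁ y else 0 := by
      intro y; rw [hc2]; split_ifs <;> simp
    rw [Finset.sum_congr rfl (fun y _ => h2 y), Finset.sum_ite_eq, if_pos (Finset.mem_univ _)]
  · funext z
    show ∑ y, e₁ y * c x₁ y (b x₂) z + ∑ y, e₂ y * c x₂ y (b x₂) z = e₂ z
    have h1 : ∀ y, e₁ y * c x₁ y (b x₂) z = 0 := by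
      intro y; rw [hc3 x₁ y x₂ (Ne.symm hne), mul_zero]
    rw [Finset.sum_congr rfl (fun y _ => h1 y), Finset.sum_const_zero, zero_add]
    have h2 : ∀ y, e₂ y * c x₂ y (b x₂) z = if z = y then e₂ y else 0 := by
      intro y; rw [hc2]; split_ifs <;> simp
    rw [Finset.sum_congr rfl (fun y _ => h2 y), Finset.sum_ite_eq, if_pos (Finset.mem_univ _)]

end Pool.Agent.R372.PN.DER
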