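import Pool.Agent.R684.PN.Stm

set_option autoImplicit false

namespace Pool.Agent.R372.PN.PF

open Pool.Agent.R684.PN Subgroup Group
open scoped commutatorElement

theorem lemS (G : Type) [Group G] [Group.IsNilpotent G] :
    ∀ H : Subgroup G, H ⊔ commutator G = ⊤ → H = ⊤ := by
  refine Group.nilpotent_center_quotient_ind
    (P := fun G _ _ => ∀ H : Subgroup G, H ⊔ commutator G = ⊤ → H = ⊤) G ?_ ?_
  · intro G _ _ H _
    exact Subsingleton.elim _ _
  · intro G _ _ ih H hH
    have hs : Function.Surjective (QuotientGroup.mk' (center G)) := QuotientGroup.mk'_surjective _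
    have h1 : H.map (QuotientGroup.mk' (center G)) ⊔ commutator (G ⧸ center G) = ⊤ := by
      have h2 := congrArg (Subgroup.map (QuotientGroup.mk' (center G))) hH
      rw [Subgroup.map_sup, Subgroup.map_top_of_surjective _ hs] at h2
      rw [eq_top_iff, ← h2]
      apply sup_le_sup_left
      rw [commutator_def, Subgroup.map_commutator, commutator_def]
      exact Subgroup.commutator_mono le_top le_top
    have h2 := ih _ h1
    have h3 : H ⊔ center G = ⊤ := by
      have h4 := Subgroup.comap_map_eq (QuotientGroup.mk' (center G)) H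
      rw [h2, QuotientGroup.ker_mk', Subgroup.comap_top] at h4
      exact h4.symm
    have c1 : ∀ h k z : G, z ∈ center G → ⁅h * z, k⁆ = ⁅h, k⁆ := by
      intro h k z hz
      have hz' := Subgroup.mem_center_iff.1 hz k
      have e1 : ⁅h * z, k⁆ = h * (z * k) * z⁻¹ * h⁻¹ * k⁻¹ := by
        rw [commutatorElement_def]; group
      rw [e1, ← hz', commutatorElement_def]
      group
    have c2 : ∀ h k z : G, z ∈ center G → ⁅k, h * z⁆ = ⁅k, h⁆ := by
      intro h k z hz
      rw [← commutatorElement_inv, c1 h k z hz, commutatorElement_inv]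
    have h5 : commutator G ≤ H := by
      rw [commutator_def, Subgroup.commutator_le]
      intro g₁ _ g₂ _
      have m1 : g₁ ∈ H ⊔ center G := by rw [h3]; trivial
      have m2 : g₂ ∈ H ⊔ center G := by rw [h3]; trivial
      rw [Subgroup.mem_sup_of_normal_right] at m1 m2
      obtain ⟨x, hx, z, hz, rfl⟩ := m1
      obtain ⟨y, hy, w, hw, rfl⟩ := m2
      rw [c1 _ _ _ hz, c2 _ _ _ hw, commutatorElement_def]
      exact H.mul_mem (H.mul_mem (H.mul_mem hx hy) (H.inv_mem hx)) (H.inv_mem hy)
    rw [sup_eq_left.2 h5] at hH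
    exact hH

theorem gen {A B : Type} [Group A] [Group B] [Group.IsNilpotent A] (θ : A →* B)
    (hk : θ.ker ≤ commutator A) (T : Set A) (hT : closure (θ '' T) = ⊤) : closure T = ⊤ := by
  apply lemS
  have h1 : (closure T).map θ = ⊤ := by rw [MonoidHom.map_closure]; exact hT
  have h2 := Subgroup.comap_map_eq θ (closure T)
  rw [h1, Subgroup.comap_top] at h2
  rw [eq_top_iff, h2]
  exact sup_le_sup_left hk _

theorem comm_mem {G H : Type} [Group G] [Group H] (f : G →* H) {x : G} (hx : x ∈ commutator G) :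
    f x ∈ commutator H := by
  have h1 : (commutator G).map f ≤ commutator H := by
    rw [commutator_def, Subgroup.map_commutator, commutator_def]
    exact Subgroup.commutator_mono le_top le_top
  exact h1 (Subgroup.mem_map_of_mem f hx)

theorem kill {G E : Type} [Group G] [Group E] {n : ℕ} (hE : lc E n = ⊥) (f : G →* E) :
    ∀ x ∈ lc G n, f x = 1 := by
  intro x hx
  have h1 : (lc G n).map f ≤ lc E n := by
    rw [map_lowerCentralSeries]
    exact lowerCentralSeries_mono n le_top
  have h2 := h1 (Subgroup.mem_map_of_mem f hx)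
  rw [hE] at h2
  exact h2

theorem lcq (G : Type) [Group G] (n : ℕ) : lc (G ⧸ lc G n) n = ⊥ := by
  have h1 : (lc G n).map (QuotientGroup.mk' (lc G n)) = lc (G ⧸ lc G n) n := by
    rw [map_lowerCentralSeries, Subgroup.map_top_of_surjective _ (QuotientGroup.mk'_surjective _)]
  rw [← h1, eq_bot_iff]
  rintro _ ⟨x, hx, rfl⟩
  exact (QuotientGroup.eq_one_iff x).2 hx

instance nil (G : Type) [Group G] (n : ℕ) : Group.IsNilpotent (G ⧸ lc G n) :=
  Subgroup.nilpotent_iff_lowerCentralSeries.2 ⟨n, lcq G n⟩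

/-- factorisation -/
def fac {G E : Type} [Group G] [Group E] {n : ℕ} (hE : lc E n = ⊥) (f : G →* E) :
    G ⧸ lc G n →* E := QuotientGroup.lift (lc G n) f (kill hE f)

theorem fac_mk {G E : Type} [Group G] [Group E] {n : ℕ} (hE : lc E n = ⊥) (f : G →* E) (g : G) :
    fac hE f (QuotientGroup.mk g) = f g := rfl

/-- projection -/
def pr (G : Type) [Group G] (n : ℕ) (hn : 1 ≤ n) : G ⧸ lc G n →* G ⧸ lc G 1 :=
  QuotientGroup.map (lc G n) (lc G 1) (MonoidHom.id G)
    (by rw [Subgroup.comap_id]; exact Subgroup.lowerCentralSeries_antitone _ hn)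

theorem pr_mk (G : Type) [Group G] (n : ℕ) (hn : 1 ≤ n) (g : G) :
    pr G n hn (QuotientGroup.mk g) = QuotientGroup.mk g := rfl

theorem pr_surj (G : Type) [Group G] (n : ℕ) (hn : 1 ≤ n) : Function.Surjective (pr G n hn) := by
  intro y
  obtain ⟨g, rfl⟩ := QuotientGroup.mk_surjective y
  exact ⟨QuotientGroup.mk g, rfl⟩

theorem pr_ker (G : Type) [Group G] (n : ℕ) (hn : 1 ≤ n) :
    ∀ a, pr G n hn a = 1 → a ∈ commutator (G ⧸ lc G n) := by
  intro a ha
  obtain ⟨g, rfl⟩ := QuotientGroup.mk_surjective a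
  rw [pr_mk, QuotientGroup.eq_one_iff] at ha
  have ha' : g ∈ commutator G := by
    rw [← top_lowerCentralSeries_one]; exact ha
  exact comm_mem (QuotientGroup.mk' (lc G n)) ha'

theorem surj_of {A B : Type} [Group A] [Group B] (f : A →* B) (T : Set A)
    (h : closure (f '' T) = ⊤) : Function.Surjective f := by
  rw [← MonoidHom.range_eq_top, eq_top_iff, ← h, Subgroup.closure_le]
  rintro _ ⟨x, _, rfl⟩
  exact ⟨x, rfl⟩

theorem t_PF : S_PF := by
  intro P X _ hL
  have hι : ∀ n : ℕ, Nonempty (P ⧸ lc P n ≃* FreeGroup X ⧸ lc (FreeGroup X) n) := hL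
  let ι : ∀ n : ℕ, P ⧸ lc P n ≃* FreeGroup X ⧸ lc (FreeGroup X) n := fun n => (hι n).some
  have hb : ∀ x : X, ∃ g : P, ι 1 (QuotientGroup.mk g) = QuotientGroup.mk (FreeGroup.of x) := by
    intro x
    obtain ⟨g, hg⟩ := QuotientGroup.mk_surjective ((ι 1).symm (QuotientGroup.mk (FreeGroup.of x)))
    exact ⟨g, by rw [hg, MulEquiv.apply_symm_apply]⟩
  choose b hb using hb
  -- the main claim
  have claim : ∀ n : ℕ, 1 ≤ n →
      closure (Set.range fun x : X => ι n (QuotientGroup.mk (b x))) = ⊤ ∧
      ∃ Ψ : (FreeGroup X ⧸ lc (FreeGroup X) n) ≃* (FreeGroup X ⧸ lc (FreeGroup X) n),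
        ∀ x : X, Ψ (QuotientGroup.mk (FreeGroup.of x)) = ι n (QuotientGroup.mk (b x)) := by
    intro n hn
    let A := FreeGroup X ⧸ lc (FreeGroup X) n
    let a : X → A := fun x => QuotientGroup.mk (FreeGroup.of x)
    let b' : X → A := fun x => ι n (QuotientGroup.mk (b x))
    have ha : closure (Set.range a) = ⊤ := by
      have h1 := congrArg (Subgroup.map (QuotientGroup.mk' (lc (FreeGroup X) n)))
        (FreeGroup.closure_range_of X)
      rw [MonoidHom.map_closure, Subgroup.map_top_of_surjective _ (QuotientGroup.mk'_surjective _),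
        ← Set.range_comp] at h1
      exact h1
    have ha1 : closure (Set.range fun x : X => (QuotientGroup.mk (FreeGroup.of x) :
        FreeGroup X ⧸ lc (FreeGroup X) 1)) = ⊤ := by
      have h1 := congrArg (Subgroup.map (QuotientGroup.mk' (lc (FreeGroup X) 1)))
        (FreeGroup.closure_range_of X)
      rw [MonoidHom.map_closure, Subgroup.map_top_of_surjective _ (QuotientGroup.mk'_surjective _),
        ← Set.range_comp] at h1
      exact h1
    let θ : A →* FreeGroup X ⧸ lc (FreeGroup X) 1 :=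
      (ι 1).toMonoidHom.comp ((pr P n hn).comp (ι n).symm.toMonoidHom)
    have hθ : ∀ y : A, θ y = ι 1 (pr P n hn ((ι n).symm y)) := fun y => rfl
    have hθs : Function.Surjective θ :=
      (ι 1).surjective.comp ((pr_surj P n hn).comp (ι n).symm.surjective)
    have hθk : θ.ker ≤ commutator A := by
      intro y hy
      rw [MonoidHom.mem_ker, hθ] at hy
      have h1 : pr P n hn ((ι n).symm y) = 1 := by
        apply (ι 1).injective
        rw [hy, map_one]
      have h2 := comm_mem (ι n).toMonoidHom (pr_ker P n hn _ h1)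
      have h3 : (ι n).toMonoidHom ((ι n).symm y) = y := (ι n).apply_symm_apply y
      rwa [h3] at h2
    have hθb : ∀ x, θ (b' x) = QuotientGroup.mk (FreeGroup.of x) := by
      intro x
      rw [hθ]
      simp only [b']
      rw [MulEquiv.symm_apply_apply, pr_mk, hb]
    have hbgen : closure (Set.range b') = ⊤ := by
      apply gen θ hθk
      rw [← Set.range_comp]
      have : (θ ∘ b') = fun x : X => (QuotientGroup.mk (FreeGroup.of x) :
        FreeGroup X ⧸ lc (FreeGroup X) 1) := funext hθb
      rw [this]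
      exact ha1
    refine ⟨hbgen, ?_⟩
    let ψ : A →* A := fac (lcq (FreeGroup X) n) (FreeGroup.lift b')
    have hψ : ∀ x, ψ (a x) = b' x := by
      intro x
      simp only [ψ, a]
      rw [fac_mk, FreeGroup.lift_apply_of]
    have hψs : Function.Surjective ψ := by
      apply surj_of ψ (Set.range a)
      rw [← Set.range_comp, show (ψ ∘ a) = b' from funext hψ]
      exact hbgen
    have hy : ∀ x : X, ∃ y : A, ψ y = a x := fun x => hψs (a x)
    choose y hy using hy
    let ψ' : A →* A := fac (lcq (FreeGroup X) n) (FreeGroup.lift y)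
    have hψ' : ∀ x, ψ' (a x) = y x := by
      intro x
      simp only [ψ', a]
      rw [fac_mk, FreeGroup.lift_apply_of]
    have hcomp : θ.comp ψ = pr (FreeGroup X) n hn := by
      apply MonoidHom.eq_of_eqOn_dense ha
      rintro _ ⟨x, rfl⟩
      rw [MonoidHom.comp_apply, hψ, hθb]
      rfl
    have hygen : closure (Set.range y) = ⊤ := by
      apply gen (pr (FreeGroup X) n hn) (fun z hz => pr_ker _ n hn z hz)
      rw [← Set.range_comp]
      have h1 : (⇑(pr (FreeGroup X) n hn) ∘ y) = θ ∘ a := by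
        funext x
        show pr (FreeGroup X) n hn (y x) = θ (a x)
        rw [← hcomp, MonoidHom.comp_apply, hy]
      rw [h1, Set.range_comp, ← MonoidHom.map_closure, ha]
      exact Subgroup.map_top_of_surjective _ hθs
    have hψ's : Function.Surjective ψ' := by
      apply surj_of ψ' (Set.range a)
      rw [← Set.range_comp, show (ψ' ∘ a) = y from funext hψ']
      exact hygen
    have hid : ψ.comp ψ' = MonoidHom.id A := by
      apply MonoidHom.eq_of_eqOn_dense ha
      rintro _ ⟨x, rfl⟩
      rw [MonoidHom.comp_apply, hψ', hy]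
      rfl
    have hψi : Function.Injective ψ := by
      intro u v huv
      obtain ⟨u', rfl⟩ := hψ's u
      obtain ⟨v', rfl⟩ := hψ's v
      have h1 : ∀ w, ψ (ψ' w) = w := fun w => DFunLike.congr_fun hid w
      rw [h1, h1] at huv
      rw [huv]
    exact ⟨MulEquiv.ofBijective ψ ⟨hψi, hψs⟩, hψ⟩
  refine ⟨b, ?_⟩
  intro E _ hE e
  obtain ⟨m, hm⟩ := Subgroup.nilpotent_iff_lowerCentralSeries.1 hE
  have hn : lc E (m + 1) = ⊥ := by
    rw [eq_bot_iff, ← hm]
    exact Subgroup.lowerCentralSeries_antitone _ (Nat.le_succ m)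
  obtain ⟨hgen, Ψ, hΨ⟩ := claim (m + 1) (by omega)
  let k : (FreeGroup X ⧸ lc (FreeGroup X) (m + 1)) →* E :=
    (fac hn (FreeGroup.lift e)).comp Ψ.symm.toMonoidHom
  have hk : ∀ x, k (ι (m + 1) (QuotientGroup.mk (b x))) = e x := by
    intro x
    show fac hn (FreeGroup.lift e) (Ψ.symm _) = e x
    rw [← hΨ, MulEquiv.symm_apply_apply, fac_mk, FreeGroup.lift_apply_of]
  refine ⟨k.comp ((ι (m + 1)).toMonoidHom.comp (QuotientGroup.mk' (lc P (m + 1)))),
    fun x => hk x, ?_⟩
  intro h' hh'
  have h1 : (fac hn h').comp (ι (m + 1)).symm.toMonoidHom = k := by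
    apply MonoidHom.eq_of_eqOn_dense hgen
    rintro _ ⟨x, rfl⟩
    rw [hk]
    show fac hn h' ((ι (m + 1)).symm (ι (m + 1) (QuotientGroup.mk (b x)))) = e x
    rw [MulEquiv.symm_apply_apply, fac_mk]
    exact hh' x
  apply MonoidHom.ext
  intro g
  show h' g = k (ι (m + 1) (QuotientGroup.mk g))
  rw [← h1]
  show h' g = fac hn h' ((ι (m + 1)).symm (ι (m + 1) (QuotientGroup.mk g)))
  rw [MulEquiv.symm_apply_apply, fac_mk]

end Pool.Agent.R372.PN.PF
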