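import Pool.Agent.R684.PN.Stm

set_option autoImplicit false

namespace Pool.Agent.R372.PN.RP

open Pool.Agent.R684.PN

theorem one (hR : S_RES) (P X : Type) [Group P] (hL : SameLCQ P X) (hN : ResNil P) (p : ℕ)
    [Fact p.Prime] (x : P) (hx : x ≠ 1) : ∃ (G : Type) (_ : Group G) (_ : Finite G) (q : P →* G),
    IsPGroup p G ∧ q x ≠ 1 := by
  have h1 : ∃ n, x ∉ lc P n := by
    by_contra h
    push Not at h
    exact hx (hN x h)
  obtain ⟨n, hn⟩ := h1
  obtain ⟨e⟩ := hL n
  obtain ⟨y, hy⟩ := QuotientGroup.mk_surjective (e (QuotientGroup.mk x))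
  have hy1 : y ∉ lc (FreeGroup X) n := by
    intro h
    rw [(QuotientGroup.eq_one_iff y).2 h] at hy
    apply hn
    rw [← QuotientGroup.eq_one_iff]
    apply e.injective
    rw [← hy, map_one]
  obtain ⟨G, hG, hF, f, hp, hk, hf⟩ := hR X p n y hy1
  refine ⟨G, hG, hF, (QuotientGroup.lift (lc (FreeGroup X) n) f hk).comp
    (e.toMonoidHom.comp (QuotientGroup.mk' (lc P n))), hp, ?_⟩
  show QuotientGroup.lift (lc (FreeGroup X) n) f hk (e (QuotientGroup.mk x)) ≠ 1
  rw [← hy]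
  exact hf

theorem many (hR : S_RES) (P X : Type) [Group P] (hL : SameLCQ P X) (hN : ResNil P) (p : ℕ)
    [Fact p.Prime] (W : Finset P) : (∀ w ∈ W, w ≠ 1) →
    ∃ (G : Type) (_ : Group G) (_ : Finite G) (q : P →* G), IsPGroup p G ∧ ∀ w ∈ W, q w ≠ 1 := by
  classical
  induction W using Finset.induction_on with
  | empty =>
    intro _
    exact ⟨PUnit, inferInstance, inferInstance, 1, fun g => ⟨0, Subsingleton.elim _ _⟩, by simp⟩
  | insert x W _ ih =>
    intro h
    obtain ⟨G, hG, hF, q, hp, hq⟩ := ih (fun w hw => h w (Finset.mem_insert_of_mem hw))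
    obtain ⟨G', hG', hF', q', hp', hq'⟩ := one hR P X hL hN p x (h x (Finset.mem_insert_self _ _))
    refine ⟨G' × G, inferInstance, inferInstance, q'.prod q, ?_, ?_⟩
    · rintro ⟨a, b⟩
      obtain ⟨k, hk⟩ := hp' a
      obtain ⟨l, hl⟩ := hp b
      refine ⟨k + l, ?_⟩
      apply Prod.ext
      · show a ^ p ^ (k + l) = 1
        rw [pow_add, pow_mul, hk, one_pow]
      · show b ^ p ^ (k + l) = 1
        rw [add_comm, pow_add, pow_mul, hl, one_pow]
    · intro w hw hc
      have h1 := Prod.ext_iff.1 hc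
      rcases Finset.mem_insert.1 hw with rfl | hw
      · exact hq' h1.1
      · exact hq w hw h1.2

theorem t_RP (h : S_RES) : S_RP := by
  classical
  intro P X _ hL hN p _ T
  obtain ⟨G, hG, hF, q, hp, hq⟩ := many h P X hL hN p (T.offDiag.image fun x => x.1 * x.2⁻¹) (by
    intro w hw
    rw [Finset.mem_image] at hw
    obtain ⟨⟨s, t⟩, hst, rfl⟩ := hw
    rw [Finset.mem_offDiag] at hst
    intro h1
    exact hst.2.2 (mul_inv_eq_one.1 h1))
  refine ⟨G, hG, hF, q, hp, ?_⟩
  intro s hs t ht hst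
  by_contra hne
  apply hq (s * t⁻¹)
  · rw [Finset.mem_image]
    exact ⟨(s, t), Finset.mem_offDiag.2 ⟨hs, ht, hne⟩, rfl⟩
  · rw [map_mul, map_inv, hst, mul_inv_cancel]

end Pool.Agent.R372.PN.RP
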